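import Mathlib
import Pool.Agent.TH40.QuadI

/-!
# Finite dimensional quadratic algebras with more than `n²/4` relations

For every field `K`, every `n` and every `d > n²/4` there is a finite dimensional quadratic
algebra over `K` with `n` generators and `d` quadratic relations (linearly independent ones
when `d ≤ n²`).

Sketch of the proof. Let `A` be a nilpotent quadratic algebra on letters `x` with relations `r_k`
and let `ξ, η` be functionals on the relations. Add two letters `a, z` and take the relations
`r_k - ξ_k a² - η_k z²`, `z a`, `x a - z x`; this adds `n + 1` relations. If the pair is good,
that is, if there are no nonzero spaces `X, Y` with letters acting `X → Y → X` such that `r_k`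
is `ξ_k` on `X` and `η_k` on `Y`, then the new algebra is again nilpotent (`z` is nilpotent by a
generalized limit construction, and then every long word vanishes). Moreover the pair which is
`(ξ + η, η)` on the old relations, `(1, 0)` on `z a` and `(0, 0)` on `x a - z x` is good for the
new relations: on `ker (z : Y → X)` one finds a representation of the old type. The recursion
starts with two letters and the relations `q p, p² - q²`, and with three letters and the relations
`z a, w a - z w, w² - z w - a w + a² + z²`.
-/

namespace Pool.Agent.Results.MP_f6e06e_al.FiniteDimQuadratic

universe u

open Pool.Agent.TH40.Quad in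
/-- For every field `K` and all `n, d` with `d > n²/4` there are `d` homogeneous quadratic elements
of the free algebra on `n` generators, linearly independent if `d ≤ n²`, such that the quotient
by the two-sided ideal they generate is finite dimensional. -/
theorem result (K : Type u) [Field K] (n d : ℕ) (h : n ^ 2 < 4 * d) :
    ∃ r : Fin d → FreeAlgebra K (Fin n),
      (∀ k, r k ∈ Submodule.span K (Set.range fun p : Fin n × Fin n =>
        FreeAlgebra.ι K p.1 * FreeAlgebra.ι K p.2)) ∧
      (d ≤ n ^ 2 → LinearIndependent K r) ∧
      FiniteDimensional K
        (RingQuot (fun x y : FreeAlgebra K (Fin n) => ∃ k, x = r k ∧ y = 0)) := by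
  obtain ⟨R, N, hli, hN⟩ := exists_family (K := K) n d h
  refine ⟨fun k => quadEl n (R k), fun k => quadEl_mem n (R k), fun hd => ?_, fd_of_nil n R N hN⟩
  exact (hli hd).map' (quadEl n) (LinearMap.ker_eq_bot.mpr (quadEl_injective n))

end Pool.Agent.Results.MP_f6e06e_al.FiniteDimQuadratic
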